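import Mathlib
import Pool.Agent.H452Z.MultDefs
import Pool.Agent.H452Z.MultMain

namespace Pool.Agent.Results.MP_d09f5b_an.BSpectralPermanence

open MeasureTheory Pool.Agent.H452Z.Mult
open scoped ENNReal

universe u v

/-- For every compact abelian group `G` with Haar measure `μ` and every `1 ≤ p < ∞`, the multiplier
algebra `M(L^p(G))` has the spectral permanence property. -/
theorem result {G : Type u} [CommGroup G] [TopologicalSpace G] [IsTopologicalGroup G]
    [CompactSpace G] [T2Space G] [MeasurableSpace G] [BorelSpace G]
    (μ : Measure G) [μ.IsHaarMeasure] (p : ℝ≥0∞) [Fact (1 ≤ p)] (hp : p ≠ ∞) :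
    SpectralPermanence.{u, v} (multiplierAlgebra μ p) :=
  mult_spectralPermanence μ p hp

end Pool.Agent.Results.MP_d09f5b_an.BSpectralPermanence
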